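import Pool.Agent.Helper95.GB.Iface

/-! # GB/KT: the graph `K_{3,3}` -/

set_option autoImplicit false

namespace GB

namespace KT

/-- The complete bipartite graph `K_{3,3}`: vertices `(true, i)`, `(false, j)`, edges `(i, j)`. -/
def K33 : Gr (Bool × Fin 3) (Fin 3 × Fin 3) where
  fin e b := (b, cond b e.1 e.2)

/-- labels of the moves with one spectator: `a d w` spectator at the vertex `w`, `b d e` spectator on
the edge `e`; the relations of the 2-cells without further spectators -/
def Rel {A : Type} [Add A] (a : Dart (Fin 3 × Fin 3) → Bool × Fin 3 → A)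
    (b : Dart (Fin 3 × Fin 3) → Fin 3 × Fin 3 → A) : Prop :=
  ∀ x y, K33.vt x ≠ K33.vt y → a x (K33.vt y) + b y x.1 = a y (K33.vt x) + b x y.1

/-- value of the exchange of two particles at the vertex `(true, 0)` -/
def starV {A : Type} [AddGroup A] (b : Dart (Fin 3 × Fin 3) → Fin 3 × Fin 3 → A) : A :=
  - b ((0, 0), true) (0, 1) + (b ((0, 2), true) (0, 1) + (- b ((0, 1), true) (0, 2) +
    (b ((0, 0), true) (0, 2) + (- b ((0, 2), true) (0, 0) + b ((0, 1), true) (0, 0)))))

end KT

end GB
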