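import Pool.Agent.Helper95.GB.KT.Defs

/-! # GB/KT/Sign: the sign labelling of `K_{3,3}` -/

set_option autoImplicit false
set_option maxRecDepth 100000

namespace GB

namespace KT

/-- spectator at a vertex -/
def LV (d : Dart (Fin 3 × Fin 3)) (w : Bool × Fin 3) : ZMod 2 :=
  if (cond w.1 0 3) + w.2.val > (cond d.2 0 3) + (cond d.2 d.1.1 d.1.2).val then 1 else 0

/-- spectator on an edge -/
def LE (d : Dart (Fin 3 × Fin 3)) (e : Fin 3 × Fin 3) : ZMod 2 :=
  if 3 * e.1.val + e.2.val < 3 * d.1.1.val + d.1.2.val then 1 else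
    if e = d.1 ∧ d.2 = true then 1 else 0

theorem rel_sign : Rel LV LE := by
  unfold Rel
  decide

theorem star_sign : starV LE = 1 := by
  decide

end KT

end GB
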