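import Pool.Agent.Helper95.GB.KT.Defs

/-! # GB/KT/Two: twice the exchange is zero in the first homology of `K_{3,3}` -/

set_option autoImplicit false
set_option maxRecDepth 100000

namespace GB

namespace KT

theorem two_star {A : Type} [CommRing A] (a : Dart (Fin 3 × Fin 3) → Bool × Fin 3 → A)
    (b : Dart (Fin 3 × Fin 3) → Fin 3 × Fin 3 → A) (H : Rel a b) : 2 * starV b = 0 := by
  have h1 : a ((0, 0), true) (false, 1) + b ((0, 1), false) (0, 0) =
      a ((0, 1), false) (true, 0) + b ((0, 0), true) (0, 1) := H ((0, 0), true) ((0, 1), false) (by decide)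
  have h2 : a ((0, 0), true) (false, 2) + b ((0, 2), false) (0, 0) =
      a ((0, 2), false) (true, 0) + b ((0, 0), true) (0, 2) := H ((0, 0), true) ((0, 2), false) (by decide)
  have h3 : a ((0, 0), true) (true, 1) + b ((1, 1), true) (0, 0) =
      a ((1, 1), true) (true, 0) + b ((0, 0), true) (1, 1) := H ((0, 0), true) ((1, 1), true) (by decide)
  have h4 : a ((0, 0), true) (false, 1) + b ((1, 1), false) (0, 0) =
      a ((1, 1), false) (true, 0) + b ((0, 0), true) (1, 1) := H ((0, 0), true) ((1, 1), false) (by decide)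
  have h5 : a ((0, 0), true) (true, 1) + b ((1, 2), true) (0, 0) =
      a ((1, 2), true) (true, 0) + b ((0, 0), true) (1, 2) := H ((0, 0), true) ((1, 2), true) (by decide)
  have h6 : a ((0, 0), true) (false, 2) + b ((1, 2), false) (0, 0) =
      a ((1, 2), false) (true, 0) + b ((0, 0), true) (1, 2) := H ((0, 0), true) ((1, 2), false) (by decide)
  have h7 : a ((0, 0), true) (true, 2) + b ((2, 1), true) (0, 0) =
      a ((2, 1), true) (true, 0) + b ((0, 0), true) (2, 1) := H ((0, 0), true) ((2, 1), true) (by decide)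
  have h8 : a ((0, 0), true) (false, 1) + b ((2, 1), false) (0, 0) =
      a ((2, 1), false) (true, 0) + b ((0, 0), true) (2, 1) := H ((0, 0), true) ((2, 1), false) (by decide)
  have h9 : a ((0, 0), true) (true, 2) + b ((2, 2), true) (0, 0) =
      a ((2, 2), true) (true, 0) + b ((0, 0), true) (2, 2) := H ((0, 0), true) ((2, 2), true) (by decide)
  have h10 : a ((0, 0), true) (false, 2) + b ((2, 2), false) (0, 0) =
      a ((2, 2), false) (true, 0) + b ((0, 0), true) (2, 2) := H ((0, 0), true) ((2, 2), false) (by decide)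
  have h11 : a ((0, 0), false) (true, 0) + b ((0, 1), true) (0, 0) =
      a ((0, 1), true) (false, 0) + b ((0, 0), false) (0, 1) := H ((0, 0), false) ((0, 1), true) (by decide)
  have h12 : a ((0, 0), false) (false, 1) + b ((0, 1), false) (0, 0) =
      a ((0, 1), false) (false, 0) + b ((0, 0), false) (0, 1) := H ((0, 0), false) ((0, 1), false) (by decide)
  have h13 : a ((0, 0), false) (true, 0) + b ((0, 2), true) (0, 0) =
      a ((0, 2), true) (false, 0) + b ((0, 0), false) (0, 2) := H ((0, 0), false) ((0, 2), true) (by decide)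
  have h14 : a ((0, 0), false) (false, 2) + b ((0, 2), false) (0, 0) =
      a ((0, 2), false) (false, 0) + b ((0, 0), false) (0, 2) := H ((0, 0), false) ((0, 2), false) (by decide)
  have h15 : a ((0, 0), false) (true, 1) + b ((1, 1), true) (0, 0) =
      a ((1, 1), true) (false, 0) + b ((0, 0), false) (1, 1) := H ((0, 0), false) ((1, 1), true) (by decide)
  have h16 : a ((0, 0), false) (false, 1) + b ((1, 1), false) (0, 0) =
      a ((1, 1), false) (false, 0) + b ((0, 0), false) (1, 1) := H ((0, 0), false) ((1, 1), false) (by decide)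
  have h17 : a ((0, 0), false) (true, 1) + b ((1, 2), true) (0, 0) =
      a ((1, 2), true) (false, 0) + b ((0, 0), false) (1, 2) := H ((0, 0), false) ((1, 2), true) (by decide)
  have h18 : a ((0, 0), false) (false, 2) + b ((1, 2), false) (0, 0) =
      a ((1, 2), false) (false, 0) + b ((0, 0), false) (1, 2) := H ((0, 0), false) ((1, 2), false) (by decide)
  have h19 : a ((0, 0), false) (true, 2) + b ((2, 1), true) (0, 0) =
      a ((2, 1), true) (false, 0) + b ((0, 0), false) (2, 1) := H ((0, 0), false) ((2, 1), true) (by decide)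
  have h20 : a ((0, 0), false) (false, 1) + b ((2, 1), false) (0, 0) =
      a ((2, 1), false) (false, 0) + b ((0, 0), false) (2, 1) := H ((0, 0), false) ((2, 1), false) (by decide)
  have h21 : a ((0, 0), false) (true, 2) + b ((2, 2), true) (0, 0) =
      a ((2, 2), true) (false, 0) + b ((0, 0), false) (2, 2) := H ((0, 0), false) ((2, 2), true) (by decide)
  have h22 : a ((0, 0), false) (false, 2) + b ((2, 2), false) (0, 0) =
      a ((2, 2), false) (false, 0) + b ((0, 0), false) (2, 2) := H ((0, 0), false) ((2, 2), false) (by decide)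
  have h23 : a ((0, 1), true) (false, 2) + b ((0, 2), false) (0, 1) =
      a ((0, 2), false) (true, 0) + b ((0, 1), true) (0, 2) := H ((0, 1), true) ((0, 2), false) (by decide)
  have h24 : a ((0, 1), true) (true, 1) + b ((1, 0), true) (0, 1) =
      a ((1, 0), true) (true, 0) + b ((0, 1), true) (1, 0) := H ((0, 1), true) ((1, 0), true) (by decide)
  have h25 : a ((0, 1), true) (false, 0) + b ((1, 0), false) (0, 1) =
      a ((1, 0), false) (true, 0) + b ((0, 1), true) (1, 0) := H ((0, 1), true) ((1, 0), false) (by decide)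
  have h26 : a ((0, 1), true) (true, 1) + b ((1, 2), true) (0, 1) =
      a ((1, 2), true) (true, 0) + b ((0, 1), true) (1, 2) := H ((0, 1), true) ((1, 2), true) (by decide)
  have h27 : a ((0, 1), true) (false, 2) + b ((1, 2), false) (0, 1) =
      a ((1, 2), false) (true, 0) + b ((0, 1), true) (1, 2) := H ((0, 1), true) ((1, 2), false) (by decide)
  have h28 : a ((0, 1), true) (true, 2) + b ((2, 0), true) (0, 1) =
      a ((2, 0), true) (true, 0) + b ((0, 1), true) (2, 0) := H ((0, 1), true) ((2, 0), true) (by decide)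
  have h29 : a ((0, 1), true) (false, 0) + b ((2, 0), false) (0, 1) =
      a ((2, 0), false) (true, 0) + b ((0, 1), true) (2, 0) := H ((0, 1), true) ((2, 0), false) (by decide)
  have h30 : a ((0, 1), true) (true, 2) + b ((2, 2), true) (0, 1) =
      a ((2, 2), true) (true, 0) + b ((0, 1), true) (2, 2) := H ((0, 1), true) ((2, 2), true) (by decide)
  have h31 : a ((0, 1), true) (false, 2) + b ((2, 2), false) (0, 1) =
      a ((2, 2), false) (true, 0) + b ((0, 1), true) (2, 2) := H ((0, 1), true) ((2, 2), false) (by decide)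
  have h32 : a ((0, 1), false) (true, 0) + b ((0, 2), true) (0, 1) =
      a ((0, 2), true) (false, 1) + b ((0, 1), false) (0, 2) := H ((0, 1), false) ((0, 2), true) (by decide)
  have h33 : a ((0, 1), false) (false, 2) + b ((0, 2), false) (0, 1) =
      a ((0, 2), false) (false, 1) + b ((0, 1), false) (0, 2) := H ((0, 1), false) ((0, 2), false) (by decide)
  have h34 : a ((0, 1), false) (true, 1) + b ((1, 0), true) (0, 1) =
      a ((1, 0), true) (false, 1) + b ((0, 1), false) (1, 0) := H ((0, 1), false) ((1, 0), true) (by decide)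
  have h35 : a ((0, 1), false) (false, 0) + b ((1, 0), false) (0, 1) =
      a ((1, 0), false) (false, 1) + b ((0, 1), false) (1, 0) := H ((0, 1), false) ((1, 0), false) (by decide)
  have h36 : a ((0, 1), false) (true, 1) + b ((1, 2), true) (0, 1) =
      a ((1, 2), true) (false, 1) + b ((0, 1), false) (1, 2) := H ((0, 1), false) ((1, 2), true) (by decide)
  have h37 : a ((0, 1), false) (false, 2) + b ((1, 2), false) (0, 1) =
      a ((1, 2), false) (false, 1) + b ((0, 1), false) (1, 2) := H ((0, 1), false) ((1, 2), false) (by decide)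
  have h38 : a ((0, 1), false) (true, 2) + b ((2, 0), true) (0, 1) =
      a ((2, 0), true) (false, 1) + b ((0, 1), false) (2, 0) := H ((0, 1), false) ((2, 0), true) (by decide)
  have h39 : a ((0, 1), false) (false, 0) + b ((2, 0), false) (0, 1) =
      a ((2, 0), false) (false, 1) + b ((0, 1), false) (2, 0) := H ((0, 1), false) ((2, 0), false) (by decide)
  have h40 : a ((0, 1), false) (true, 2) + b ((2, 2), true) (0, 1) =
      a ((2, 2), true) (false, 1) + b ((0, 1), false) (2, 2) := H ((0, 1), false) ((2, 2), true) (by decide)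
  have h41 : a ((0, 1), false) (false, 2) + b ((2, 2), false) (0, 1) =
      a ((2, 2), false) (false, 1) + b ((0, 1), false) (2, 2) := H ((0, 1), false) ((2, 2), false) (by decide)
  have h42 : a ((0, 2), true) (true, 1) + b ((1, 0), true) (0, 2) =
      a ((1, 0), true) (true, 0) + b ((0, 2), true) (1, 0) := H ((0, 2), true) ((1, 0), true) (by decide)
  have h43 : a ((0, 2), true) (false, 0) + b ((1, 0), false) (0, 2) =
      a ((1, 0), false) (true, 0) + b ((0, 2), true) (1, 0) := H ((0, 2), true) ((1, 0), false) (by decide)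
  have h44 : a ((0, 2), true) (true, 1) + b ((1, 1), true) (0, 2) =
      a ((1, 1), true) (true, 0) + b ((0, 2), true) (1, 1) := H ((0, 2), true) ((1, 1), true) (by decide)
  have h45 : a ((0, 2), true) (false, 1) + b ((1, 1), false) (0, 2) =
      a ((1, 1), false) (true, 0) + b ((0, 2), true) (1, 1) := H ((0, 2), true) ((1, 1), false) (by decide)
  have h46 : a ((0, 2), true) (true, 2) + b ((2, 0), true) (0, 2) =
      a ((2, 0), true) (true, 0) + b ((0, 2), true) (2, 0) := H ((0, 2), true) ((2, 0), true) (by decide)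
  have h47 : a ((0, 2), true) (false, 0) + b ((2, 0), false) (0, 2) =
      a ((2, 0), false) (true, 0) + b ((0, 2), true) (2, 0) := H ((0, 2), true) ((2, 0), false) (by decide)
  have h48 : a ((0, 2), true) (true, 2) + b ((2, 1), true) (0, 2) =
      a ((2, 1), true) (true, 0) + b ((0, 2), true) (2, 1) := H ((0, 2), true) ((2, 1), true) (by decide)
  have h49 : a ((0, 2), true) (false, 1) + b ((2, 1), false) (0, 2) =
      a ((2, 1), false) (true, 0) + b ((0, 2), true) (2, 1) := H ((0, 2), true) ((2, 1), false) (by decide)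
  have h50 : a ((0, 2), false) (true, 1) + b ((1, 0), true) (0, 2) =
      a ((1, 0), true) (false, 2) + b ((0, 2), false) (1, 0) := H ((0, 2), false) ((1, 0), true) (by decide)
  have h51 : a ((0, 2), false) (false, 0) + b ((1, 0), false) (0, 2) =
      a ((1, 0), false) (false, 2) + b ((0, 2), false) (1, 0) := H ((0, 2), false) ((1, 0), false) (by decide)
  have h52 : a ((0, 2), false) (true, 1) + b ((1, 1), true) (0, 2) =
      a ((1, 1), true) (false, 2) + b ((0, 2), false) (1, 1) := H ((0, 2), false) ((1, 1), true) (by decide)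
  have h53 : a ((0, 2), false) (false, 1) + b ((1, 1), false) (0, 2) =
      a ((1, 1), false) (false, 2) + b ((0, 2), false) (1, 1) := H ((0, 2), false) ((1, 1), false) (by decide)
  have h54 : a ((0, 2), false) (true, 2) + b ((2, 0), true) (0, 2) =
      a ((2, 0), true) (false, 2) + b ((0, 2), false) (2, 0) := H ((0, 2), false) ((2, 0), true) (by decide)
  have h55 : a ((0, 2), false) (false, 0) + b ((2, 0), false) (0, 2) =
      a ((2, 0), false) (false, 2) + b ((0, 2), false) (2, 0) := H ((0, 2), false) ((2, 0), false) (by decide)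
  have h56 : a ((0, 2), false) (true, 2) + b ((2, 1), true) (0, 2) =
      a ((2, 1), true) (false, 2) + b ((0, 2), false) (2, 1) := H ((0, 2), false) ((2, 1), true) (by decide)
  have h57 : a ((0, 2), false) (false, 1) + b ((2, 1), false) (0, 2) =
      a ((2, 1), false) (false, 2) + b ((0, 2), false) (2, 1) := H ((0, 2), false) ((2, 1), false) (by decide)
  have h58 : a ((1, 0), true) (true, 2) + b ((2, 1), true) (1, 0) =
      a ((2, 1), true) (true, 1) + b ((1, 0), true) (2, 1) := H ((1, 0), true) ((2, 1), true) (by decide)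
  have h59 : a ((1, 0), true) (false, 1) + b ((2, 1), false) (1, 0) =
      a ((2, 1), false) (true, 1) + b ((1, 0), true) (2, 1) := H ((1, 0), true) ((2, 1), false) (by decide)
  have h60 : a ((1, 0), true) (true, 2) + b ((2, 2), true) (1, 0) =
      a ((2, 2), true) (true, 1) + b ((1, 0), true) (2, 2) := H ((1, 0), true) ((2, 2), true) (by decide)
  have h61 : a ((1, 0), true) (false, 2) + b ((2, 2), false) (1, 0) =
      a ((2, 2), false) (true, 1) + b ((1, 0), true) (2, 2) := H ((1, 0), true) ((2, 2), false) (by decide)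
  have h62 : a ((1, 0), false) (true, 2) + b ((2, 1), true) (1, 0) =
      a ((2, 1), true) (false, 0) + b ((1, 0), false) (2, 1) := H ((1, 0), false) ((2, 1), true) (by decide)
  have h63 : a ((1, 0), false) (false, 1) + b ((2, 1), false) (1, 0) =
      a ((2, 1), false) (false, 0) + b ((1, 0), false) (2, 1) := H ((1, 0), false) ((2, 1), false) (by decide)
  have h64 : a ((1, 0), false) (true, 2) + b ((2, 2), true) (1, 0) =
      a ((2, 2), true) (false, 0) + b ((1, 0), false) (2, 2) := H ((1, 0), false) ((2, 2), true) (by decide)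
  have h65 : a ((1, 0), false) (false, 2) + b ((2, 2), false) (1, 0) =
      a ((2, 2), false) (false, 0) + b ((1, 0), false) (2, 2) := H ((1, 0), false) ((2, 2), false) (by decide)
  have h66 : a ((1, 1), true) (true, 2) + b ((2, 0), true) (1, 1) =
      a ((2, 0), true) (true, 1) + b ((1, 1), true) (2, 0) := H ((1, 1), true) ((2, 0), true) (by decide)
  have h67 : a ((1, 1), true) (false, 0) + b ((2, 0), false) (1, 1) =
      a ((2, 0), false) (true, 1) + b ((1, 1), true) (2, 0) := H ((1, 1), true) ((2, 0), false) (by decide)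
  have h68 : a ((1, 1), true) (true, 2) + b ((2, 2), true) (1, 1) =
      a ((2, 2), true) (true, 1) + b ((1, 1), true) (2, 2) := H ((1, 1), true) ((2, 2), true) (by decide)
  have h69 : a ((1, 1), true) (false, 2) + b ((2, 2), false) (1, 1) =
      a ((2, 2), false) (true, 1) + b ((1, 1), true) (2, 2) := H ((1, 1), true) ((2, 2), false) (by decide)
  have h70 : a ((1, 1), false) (true, 2) + b ((2, 0), true) (1, 1) =
      a ((2, 0), true) (false, 1) + b ((1, 1), false) (2, 0) := H ((1, 1), false) ((2, 0), true) (by decide)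
  have h71 : a ((1, 1), false) (false, 0) + b ((2, 0), false) (1, 1) =
      a ((2, 0), false) (false, 1) + b ((1, 1), false) (2, 0) := H ((1, 1), false) ((2, 0), false) (by decide)
  have h72 : a ((1, 1), false) (true, 2) + b ((2, 2), true) (1, 1) =
      a ((2, 2), true) (false, 1) + b ((1, 1), false) (2, 2) := H ((1, 1), false) ((2, 2), true) (by decide)
  have h73 : a ((1, 1), false) (false, 2) + b ((2, 2), false) (1, 1) =
      a ((2, 2), false) (false, 1) + b ((1, 1), false) (2, 2) := H ((1, 1), false) ((2, 2), false) (by decide)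
  have h74 : a ((1, 2), true) (true, 2) + b ((2, 0), true) (1, 2) =
      a ((2, 0), true) (true, 1) + b ((1, 2), true) (2, 0) := H ((1, 2), true) ((2, 0), true) (by decide)
  have h75 : a ((1, 2), true) (false, 0) + b ((2, 0), false) (1, 2) =
      a ((2, 0), false) (true, 1) + b ((1, 2), true) (2, 0) := H ((1, 2), true) ((2, 0), false) (by decide)
  have h76 : a ((1, 2), true) (true, 2) + b ((2, 1), true) (1, 2) =
      a ((2, 1), true) (true, 1) + b ((1, 2), true) (2, 1) := H ((1, 2), true) ((2, 1), true) (by decide)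
  have h77 : a ((1, 2), true) (false, 1) + b ((2, 1), false) (1, 2) =
      a ((2, 1), false) (true, 1) + b ((1, 2), true) (2, 1) := H ((1, 2), true) ((2, 1), false) (by decide)
  have h78 : a ((1, 2), false) (true, 2) + b ((2, 0), true) (1, 2) =
      a ((2, 0), true) (false, 2) + b ((1, 2), false) (2, 0) := H ((1, 2), false) ((2, 0), true) (by decide)
  have h79 : a ((1, 2), false) (false, 0) + b ((2, 0), false) (1, 2) =
      a ((2, 0), false) (false, 2) + b ((1, 2), false) (2, 0) := H ((1, 2), false) ((2, 0), false) (by decide)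
  have h80 : a ((1, 2), false) (true, 2) + b ((2, 1), true) (1, 2) =
      a ((2, 1), true) (false, 2) + b ((1, 2), false) (2, 1) := H ((1, 2), false) ((2, 1), true) (by decide)
  have h81 : a ((1, 2), false) (false, 1) + b ((2, 1), false) (1, 2) =
      a ((2, 1), false) (false, 2) + b ((1, 2), false) (2, 1) := H ((1, 2), false) ((2, 1), false) (by decide)
  unfold starV
  linear_combination (2) * h1 + (-2) * h2 + (1) * h3 + (-1) * h4 + (-1) * h5 + (1) * h6 +
    (1) * h7 + (-1) * h8 + (-1) * h9 + (1) * h10 + (2) * h11 + (-2) * h12 + (-2) * h13 +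
    (2) * h14 + (-1) * h15 + (1) * h16 + (1) * h17 + (-1) * h18 + (-1) * h19 + (1) * h20 +
    (1) * h21 + (-1) * h22 + (2) * h23 + (-1) * h24 + (1) * h25 + (1) * h26 + (-1) * h27 +
    (-1) * h28 + (1) * h29 + (1) * h30 + (-1) * h31 + (2) * h32 + (-2) * h33 + (1) * h34 +
    (-1) * h35 + (-1) * h36 + (1) * h37 + (1) * h38 + (-1) * h39 + (-1) * h40 + (1) * h41 +
    (1) * h42 + (-1) * h43 + (-1) * h44 + (1) * h45 + (1) * h46 + (-1) * h47 + (-1) * h48 +
    (1) * h49 + (-1) * h50 + (1) * h51 + (1) * h52 + (-1) * h53 + (-1) * h54 + (1) * h55 +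
    (1) * h56 + (-1) * h57 + (-1) * h58 + (1) * h59 + (1) * h60 + (-1) * h61 + (1) * h62 +
    (-1) * h63 + (-1) * h64 + (1) * h65 + (1) * h66 + (-1) * h67 + (-1) * h68 + (1) * h69 +
    (-1) * h70 + (1) * h71 + (1) * h72 + (-1) * h73 + (-1) * h74 + (1) * h75 + (1) * h76 +
    (-1) * h77 + (1) * h78 + (-1) * h79 + (-1) * h80 + (1) * h81

end KT

end GB
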