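import Pool.Agent.Helper95.GB.KT.Lift
import Pool.Agent.Helper95.GB.KT.Two
import Pool.Agent.Helper95.GB.KT.Sign
import Pool.Agent.Helper95.GB.GT.Pi1

/-! # GB/KT/Final: the two particle braid group of `K_{3,3}` is not genus 1 (stub, prove in place)

`conn`: any two vertices are joined by a walk of length at most 2: from `(true, i)` to `(false, j)` by the half-edge `((i, j), true)`
(`vt` is `(true, i)`, `vt` of `opp` is `(false, j)`), back by `((i, j), false)`; `(true, i)` to `(true, i')` through `(false, 0)`, etc.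
`noTheta`: if `u`, `v`, `p` are as in `HasTheta4`, each `p k` is not `[]` (`u ≠ v`), its first half-edge `d k` is at `u`, and the edges
`(d k).1` are different for different `k`; but the half-edges at `u` are `((i, j), b)` with `u = (b, i)` resp. `(b, j)`: only three
(injection `Fin 4 → Fin 3`, e.g. `k ↦` the other coordinate of the edge).

`notGenus`: let `c = ⟨∅, δ (0,0) + δ (0,1)⟩`, `G = Pi1 c`, `D` from `pid_pi1 K33.cx c`.
The star walk `w`: with `E x f := ⟨(x, ⟨∅, δ f⟩), _⟩ : K33.cx.Ed` for half-edges `x` at `(true, 0)`, `x_j = ((0, j), true)`, `e_j = (0, j)`: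
`w = [(E x₀ e₁, false), (E x₂ e₁, true), (E x₁ e₂, false), (E x₀ e₂, true), (E x₂ e₀, false), (E x₁ e₀, true)]`, a closed walk at `c`
(`E x f` goes from `⟨{(true,0)}, δ f⟩` to `⟨∅, δ f + δ x.1⟩`; `add_comm`).
Labelling `l₂` with values in `Multiplicative (ZMod 2)`: the label of `(d, m)` is `LV d w` if `m = ⟨{w}, 0⟩`, `LE d e` if `m = ⟨∅, δ e⟩`,
and `0` otherwise (classical case distinction; the two cases exclude each other and determine `w`, `e`).  `Lab`: a 2-cell is given by `x, y, m`; if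
`m = ⟨∅, 0⟩` the relation is `rel_sign x y`; otherwise all four labels are `0` (`⟨insert (vt y) m.occ, m.num⟩ = ⟨{w}, 0⟩` forces
`m.occ = ∅` as `vt y ∉ m.occ`, and `m.num = 0`; `⟨m.occ, m.num + δ x.1⟩ = ⟨∅, δ e⟩` forces `m.num = 0` and is not of the form `⟨{w}, 0⟩`, as
`m.num + δ x.1 ≠ 0`).  `D.univ` gives `φ`, `toAdd (φ (val D.g w)) = starV LE = 1`.
Suppose `Genus1 G`; `genus1_lift` gives `ψ`.  Let `a d w = toAdd (ψ (D.g ⟨(d, ⟨{w}, 0⟩), _⟩))` if `vt d ≠ w` (and `0` otherwise) and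
`b d e = toAdd (ψ (D.g ⟨(d, ⟨∅, δ e⟩), _⟩))`.  `Rel a b` by `D.sq` (2-cells with `m = ⟨∅, 0⟩`).  `two_star`: `2 * starV b = 0` in `ZMod 4`, and
`starV b = toAdd (ψ (val D.g w))`, whose image in `ZMod 2` is `1`; but in `ZMod 4` `2 * t = 0` implies that the cast of `t` is `0`
(`decide`).  Contradiction.
-/

set_option autoImplicit false

namespace GB

namespace KT

theorem conn : K33.Connected := by
  refine ⟨⟨(true, 0)⟩, ?_⟩
  rintro ⟨b, i⟩ ⟨b', j⟩
  cases b <;> cases b'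
  · exact ⟨[((0, i), false), ((0, j), true)], rfl, rfl, rfl⟩
  · exact ⟨[((j, i), false)], rfl, rfl⟩
  · exact ⟨[((i, j), true)], rfl, rfl⟩
  · exact ⟨[((i, 0), true), ((j, 0), false)], rfl, rfl, rfl⟩

theorem noTheta : ¬ K33.HasTheta4 := by
  rintro ⟨u, v, p, huv, hp, hpp⟩
  have h1 : ∀ k, ∃ d, d ∈ p k ∧ K33.vt d = u := by
    intro k
    have h2 := (hp k).1
    rcases hk : p k with _ | ⟨d, l⟩
    · rw [hk] at h2
      exact absurd h2 huv
    · rw [hk] at h2
      exact ⟨d, by simp, h2.1⟩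
  choose d hd1 hd2 using h1
  let f : Fin 4 → Fin 3 := fun k => cond u.1 (d k).1.2 (d k).1.1
  have hf : Function.Injective f := by
    intro k k' hkk
    by_contra hne
    apply (hpp k k' hne).2 (d k) (hd1 k) (d k') (hd1 k')
    have h3 := hd2 k
    have h4 := hd2 k'
    change cond u.1 (d k).1.2 (d k).1.1 = cond u.1 (d k').1.2 (d k').1.1 at hkk
    change ((d k).2, cond (d k).2 (d k).1.1 (d k).1.2) = u at h3
    change ((d k').2, cond (d k').2 (d k').1.1 (d k').1.2) = u at h4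
    rcases hx : d k with ⟨⟨i, j⟩, b⟩
    rcases hy : d k' with ⟨⟨i', j'⟩, b'⟩
    rw [hx] at h3 hkk
    rw [hy] at h4 hkk
    rw [← h3] at hkk h4
    simp only [Prod.mk.injEq] at h4
    obtain ⟨h5, h6⟩ := h4
    subst h5
    cases b'
    · simp only [cond_false] at h6 hkk
      rw [h6, hkk]
    · simp only [cond_true] at h6 hkk
      rw [h6, hkk]
  have := Fintype.card_le_of_injective f hf
  simp at this

/-- moves with one spectator on an edge -/
private noncomputable def Em (d : Dart (Fin 3 × Fin 3)) (e : Fin 3 × Fin 3) : K33.cx.Ed :=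
  (⟨(d, ⟨∅, δ e⟩), Finset.notMem_empty _⟩ :
    {p : Dart (Fin 3 × Fin 3) × Conf (Bool × Fin 3) (Fin 3 × Fin 3) // K33.vt p.1 ∉ p.2.occ})

private noncomputable def c0 : Conf (Bool × Fin 3) (Fin 3 × Fin 3) := ⟨∅, δ (0, 0) + δ (0, 1)⟩

private noncomputable def w0 : List (K33.cx.Ed × Bool) :=
  [(Em ((0, 0), true) (0, 1), false), (Em ((0, 2), true) (0, 1), true),
   (Em ((0, 1), true) (0, 2), false), (Em ((0, 0), true) (0, 2), true),
   (Em ((0, 2), true) (0, 0), false), (Em ((0, 1), true) (0, 0), true)]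

private theorem w0_walk : K33.cx.IsWalk c0 w0 c0 := by
  refine ⟨?_, rfl, ?_, rfl, ?_, rfl, ?_⟩
  · change (⟨∅, δ (0, 1) + δ (0, 0)⟩ : Conf (Bool × Fin 3) (Fin 3 × Fin 3)) =
      ⟨∅, δ (0, 0) + δ (0, 1)⟩
    rw [add_comm]
  · change (⟨∅, δ (0, 2) + δ (0, 1)⟩ : Conf (Bool × Fin 3) (Fin 3 × Fin 3)) =
      ⟨∅, δ (0, 1) + δ (0, 2)⟩
    rw [add_comm]
  · change (⟨∅, δ (0, 0) + δ (0, 2)⟩ : Conf (Bool × Fin 3) (Fin 3 × Fin 3)) =
      ⟨∅, δ (0, 2) + δ (0, 0)⟩
    rw [add_comm]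
  · rfl

private theorem val_star {A : Type} [AddCommGroup A] (l : K33.cx.Ed → Multiplicative A) :
    Multiplicative.toAdd (K33.cx.val l w0) =
      starV (fun d e => Multiplicative.toAdd (l (Em d e))) := by
  simp only [w0, Cx.val, starV, toAdd_mul, toAdd_one, add_zero, if_true,
    Bool.false_eq_true, if_false, toAdd_inv]

private theorem val_hom {K : Cx} {G L : Type} [Group G] [Group L] (f : G →* L) (l : K.Ed → G)
    (w : List (K.Ed × Bool)) : f (K.val l w) = K.val (fun a => f (l a)) w := by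
  induction w with
  | nil => simp [Cx.val]
  | cons a w ih =>
    simp only [Cx.val, map_mul, ih]
    rcases a with ⟨a, _ | _⟩ <;> simp

/-- the sign label -/
private noncomputable def lb (d : Dart (Fin 3 × Fin 3))
    (m : Conf (Bool × Fin 3) (Fin 3 × Fin 3)) : ZMod 2 := by
  classical
  exact if h : ∃ w, m = ⟨{w}, 0⟩ then LV d h.choose else
    if h : ∃ e, m = ⟨∅, δ e⟩ then LE d h.choose else 0

private theorem lb_V (d : Dart (Fin 3 × Fin 3)) (w : Bool × Fin 3) : lb d ⟨{w}, 0⟩ = LV d w := by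
  have h : ∃ w', (⟨{w}, 0⟩ : Conf (Bool × Fin 3) (Fin 3 × Fin 3)) = ⟨{w'}, 0⟩ := ⟨w, rfl⟩
  have h1 : w = h.choose := by
    have h2 := (Conf.mk.injEq _ _ _ _).mp h.choose_spec
    exact Finset.singleton_inj.1 h2.1
  unfold lb
  rw [dif_pos h]
  exact congrArg (LV d) h1.symm

private theorem lb_E (d : Dart (Fin 3 × Fin 3)) (e : Fin 3 × Fin 3) :
    lb d ⟨∅, δ e⟩ = LE d e := by
  have h0 : ¬ ∃ w', (⟨∅, δ e⟩ : Conf (Bool × Fin 3) (Fin 3 × Fin 3)) = ⟨{w'}, 0⟩ := by
    rintro ⟨w', h⟩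
    simp only [Conf.mk.injEq] at h
    exact (Finset.singleton_ne_empty w') h.1.symm
  have h : ∃ e', (⟨∅, δ e⟩ : Conf (Bool × Fin 3) (Fin 3 × Fin 3)) = ⟨∅, δ e'⟩ := ⟨e, rfl⟩
  have h1 := (Conf.mk.injEq _ _ _ _).mp h.choose_spec
  have h2 : e = h.choose := Finsupp.single_left_injective (one_ne_zero (α := ℕ)) h1.2
  unfold lb
  rw [dif_neg h0, dif_pos h]
  exact congrArg (LE d) h2.symm

private theorem lb_0 (d : Dart (Fin 3 × Fin 3)) (m : Conf (Bool × Fin 3) (Fin 3 × Fin 3))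
    (h1 : ∀ w, m ≠ ⟨{w}, 0⟩) (h2 : ∀ e, m ≠ ⟨∅, δ e⟩) : lb d m = 0 := by
  unfold lb
  rw [dif_neg (fun ⟨w, h⟩ => h1 w h), dif_neg (fun ⟨e, h⟩ => h2 e h)]

private theorem add_delta_ne {f : Fin 3 × Fin 3 →₀ ℕ} (e : Fin 3 × Fin 3) : f + δ e ≠ 0 := by
  intro h
  have h1 := DFunLike.congr_fun h e
  simp at h1

private theorem add_delta_eq {f : Fin 3 × Fin 3 →₀ ℕ} {e e' : Fin 3 × Fin 3}
    (h : f + δ e = δ e') : f = 0 := by
  have h1 := congrArg Finsupp.degree h
  rw [map_add, Finsupp.degree_single, Finsupp.degree_single] at h1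
  exact (Finsupp.degree_eq_zero_iff f).1 (by omega)

private theorem lb_rel (x y : Dart (Fin 3 × Fin 3)) (m : Conf (Bool × Fin 3) (Fin 3 × Fin 3))
    (hxy : K33.vt x ≠ K33.vt y) (hx : K33.vt x ∉ m.occ) (hy : K33.vt y ∉ m.occ) :
    lb x ⟨insert (K33.vt y) m.occ, m.num⟩ + lb y ⟨m.occ, m.num + δ x.1⟩ =
      lb y ⟨insert (K33.vt x) m.occ, m.num⟩ + lb x ⟨m.occ, m.num + δ y.1⟩ := by
  by_cases hm : m = ⟨∅, 0⟩
  · subst hm
    have h1 : ∀ w : Bool × Fin 3, insert w (∅ : Finset (Bool × Fin 3)) = {w} :=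
      fun w => insert_empty_eq w
    simp only [h1, zero_add]
    rw [lb_V, lb_V, lb_E, lb_E]
    exact rel_sign x y hxy
  · have k1 : ∀ d w, w ∉ m.occ → lb d ⟨insert w m.occ, m.num⟩ = 0 := by
      intro d w hw
      apply lb_0
      · intro w' h
        simp only [Conf.mk.injEq] at h
        obtain ⟨h2, h3⟩ := h
        apply hm
        ext1
        · have h4 : w ∈ ({w'} : Finset (Bool × Fin 3)) := by
            rw [← h2]; exact Finset.mem_insert_self _ _
          rw [Finset.mem_singleton] at h4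
          subst h4
          rw [Finset.eq_empty_iff_forall_notMem]
          intro z hz
          have h5 : z ∈ ({w} : Finset (Bool × Fin 3)) := by
            rw [← h2]; exact Finset.mem_insert_of_mem hz
          rw [Finset.mem_singleton] at h5
          subst h5
          exact hw hz
        · exact h3
      · intro e h
        simp only [Conf.mk.injEq] at h
        exact (Finset.insert_ne_empty _ _) h.1
    have k2 : ∀ d e, lb d ⟨m.occ, m.num + δ e⟩ = 0 := by
      intro d e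
      apply lb_0
      · intro w h
        simp only [Conf.mk.injEq] at h
        exact add_delta_ne e h.2
      · intro e' h
        simp only [Conf.mk.injEq] at h
        apply hm
        ext1
        · exact h.1
        · exact add_delta_eq h.2
    rw [k1 _ _ hy, k1 _ _ hx, k2, k2]

theorem notGenus : ∃ c : Conf (Bool × Fin 3) (Fin 3 × Fin 3), c.card = 2 ∧
    ¬ Genus1 (BraidGroup K33 c) := by
  classical
  refine ⟨c0, ?_, ?_⟩
  · unfold Conf.card c0
    simp only [Finset.card_empty, zero_add]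
    rw [Finsupp.sum_add_index' (by simp) (by intros; rfl)]
    simp
  · intro hG
    obtain ⟨D⟩ := pid_pi1 K33.cx c0
    let l₂ : K33.cx.Ed → Multiplicative (ZMod 2) := fun a => Multiplicative.ofAdd
      (lb a.1.1 a.1.2)
    have hl₂ : K33.cx.Lab l₂ := by
      rintro a b c d ⟨x, y, m, h, hx, hy, ha, hb, hc, hd⟩
      apply Multiplicative.toAdd.injective
      change lb a.1.1 a.1.2 + lb b.1.1 b.1.2 = lb c.1.1 c.1.2 + lb d.1.1 d.1.2
      rw [ha, hb, hc, hd]
      exact lb_rel x y m h hx hy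
    obtain ⟨φ, hφ⟩ := D.univ _ l₂ hl₂
    obtain ⟨ψ, hψ⟩ := genus1_lift hG φ
    let γ : Dart (Fin 3 × Fin 3) → Conf (Bool × Fin 3) (Fin 3 × Fin 3) → ZMod 4 := fun d m =>
      if h : K33.vt d ∉ m.occ then Multiplicative.toAdd (ψ (D.g (⟨(d, m), h⟩ :
        {p : Dart (Fin 3 × Fin 3) × Conf (Bool × Fin 3) (Fin 3 × Fin 3) //
          K33.vt p.1 ∉ p.2.occ}))) else 0
    have hγ : ∀ (d : Dart (Fin 3 × Fin 3)) (m : Conf (Bool × Fin 3) (Fin 3 × Fin 3))
        (h : K33.vt d ∉ m.occ), γ d m = Multiplicative.toAdd (ψ (D.g (⟨(d, m), h⟩ :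
        {p : Dart (Fin 3 × Fin 3) × Conf (Bool × Fin 3) (Fin 3 × Fin 3) //
          K33.vt p.1 ∉ p.2.occ}))) := fun d m h => dif_pos h
    have hrel : ∀ (x y : Dart (Fin 3 × Fin 3)) (m : Conf (Bool × Fin 3) (Fin 3 × Fin 3)),
        K33.vt x ≠ K33.vt y → K33.vt x ∉ m.occ → K33.vt y ∉ m.occ →
        γ x ⟨insert (K33.vt y) m.occ, m.num⟩ + γ y ⟨m.occ, m.num + δ x.1⟩ =
        γ y ⟨insert (K33.vt x) m.occ, m.num⟩ + γ x ⟨m.occ, m.num + δ y.1⟩ := by
      intro x y m hxy hx hy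
      have hx' : K33.vt x ∉ insert (K33.vt y) m.occ := by
        rw [Finset.mem_insert]
        rintro (h | h)
        · exact hxy h
        · exact hx h
      have hy' : K33.vt y ∉ insert (K33.vt x) m.occ := by
        rw [Finset.mem_insert]
        rintro (h | h)
        · exact hxy h.symm
        · exact hy h
      have e1 := hγ x ⟨insert (K33.vt y) m.occ, m.num⟩ hx'
      have e2 := hγ y ⟨m.occ, m.num + δ x.1⟩ hy
      have e3 := hγ y ⟨insert (K33.vt x) m.occ, m.num⟩ hy'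
      have e4 := hγ x ⟨m.occ, m.num + δ y.1⟩ hx
      have e5 := D.sq (⟨(x, ⟨insert (K33.vt y) m.occ, m.num⟩), hx'⟩ :
        {p : Dart (Fin 3 × Fin 3) × Conf (Bool × Fin 3) (Fin 3 × Fin 3) //
          K33.vt p.1 ∉ p.2.occ}) (⟨(y, ⟨m.occ, m.num + δ x.1⟩), hy⟩ :
        {p : Dart (Fin 3 × Fin 3) × Conf (Bool × Fin 3) (Fin 3 × Fin 3) //
          K33.vt p.1 ∉ p.2.occ}) (⟨(y, ⟨insert (K33.vt x) m.occ, m.num⟩), hy'⟩ :
        {p : Dart (Fin 3 × Fin 3) × Conf (Bool × Fin 3) (Fin 3 × Fin 3) //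
          K33.vt p.1 ∉ p.2.occ}) (⟨(x, ⟨m.occ, m.num + δ y.1⟩), hx⟩ :
        {p : Dart (Fin 3 × Fin 3) × Conf (Bool × Fin 3) (Fin 3 × Fin 3) //
          K33.vt p.1 ∉ p.2.occ}) ⟨x, y, m, hxy, hx, hy, rfl, rfl, rfl, rfl⟩
      have e6 := congrArg (fun z => Multiplicative.toAdd (ψ z)) e5
      have e7 : ∀ z z' : K33.cx.Pi1 c0, Multiplicative.toAdd (ψ (z * z')) =
        Multiplicative.toAdd (ψ z) + Multiplicative.toAdd (ψ z') := by
        intro z z'
        exact congrArg Multiplicative.toAdd (map_mul ψ z z')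
      exact ((congrArg₂ (· + ·) e1 e2).trans (e7 _ _).symm).trans
        (e6.trans ((e7 _ _).trans (congrArg₂ (· + ·) e3 e4).symm))
    let a : Dart (Fin 3 × Fin 3) → Bool × Fin 3 → ZMod 4 := fun d w => γ d ⟨{w}, 0⟩
    let b : Dart (Fin 3 × Fin 3) → Fin 3 × Fin 3 → ZMod 4 := fun d e => γ d ⟨∅, δ e⟩
    have hab : Rel a b := by
      intro x y hxy
      have h1 := hrel x y ⟨∅, 0⟩ hxy (Finset.notMem_empty _) (Finset.notMem_empty _)
      have h2 : ∀ w : Bool × Fin 3, insert w (∅ : Finset (Bool × Fin 3)) = {w} :=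
        fun w => insert_empty_eq w
      simp only [h2, zero_add] at h1
      exact h1
    have h2 := two_star a b hab
    have hb : starV b = Multiplicative.toAdd (ψ (K33.cx.val D.g w0)) := by
      rw [val_hom, val_star]
      rfl
    have h3 := hψ (K33.cx.val D.g w0)
    rw [hφ w0 w0_walk, val_star, ← hb] at h3
    have h4 : starV (fun d e => Multiplicative.toAdd (l₂ (Em d e))) = 1 := by
      have h5 : (fun d e => Multiplicative.toAdd (l₂ (Em d e))) = LE := by
        funext d e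
        exact lb_E d e
      rw [h5]
      exact star_sign
    rw [h4] at h3
    have h6 : ∀ t : ZMod 4, 2 * t = 0 →
      (ZMod.castHom (by decide : 2 ∣ 4) (ZMod 2)) t ≠ 1 := by decide
    exact h6 _ h2 h3

end KT

end GB
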