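import Pool.Agent.Helper95.GB.Iface

/-! # GB/KT/Lift: characters of genus 1 groups lift (stub, prove in place)

Let `G ≃* PresentedGroup R`, all `r ∈ R` commutators.  For `s : S` choose `f s : ZMod 4` whose cast is `toAdd (φ (class of s))` (the
cast `ZMod 4 → ZMod 2` is surjective).  `PresentedGroup.toGroup` for `s ↦ Multiplicative.ofAdd (f s)`: the lift kills each
commutator as the target is commutative (`FreeGroup.lift` of `u v u⁻¹ v⁻¹`).  The two homomorphisms `PresentedGroup R →* Multiplicative (ZMod 2)`
(cast after the lift, and `φ`) agree on the generators (`PresentedGroup.ext`).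
-/

set_option autoImplicit false

namespace GB

namespace KT

theorem genus1_lift {G : Type} [Group G] (hG : Genus1 G) (φ : G →* Multiplicative (ZMod 2)) :
    ∃ ψ : G →* Multiplicative (ZMod 4), ∀ x,
      (ZMod.castHom (by decide : 2 ∣ 4) (ZMod 2)) (Multiplicative.toAdd (ψ x)) =
        Multiplicative.toAdd (φ x) := by
  obtain ⟨S, R, hR, ⟨e⟩⟩ := hG
  have hsurj : Function.Surjective (ZMod.castHom (by decide : 2 ∣ 4) (ZMod 2)) :=
    ZMod.castHom_surjective _
  choose f hf using fun s : S => hsurj (Multiplicative.toAdd (φ (e (PresentedGroup.of s))))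
  have hrel : ∀ r ∈ R, FreeGroup.lift (fun s => Multiplicative.ofAdd (f s)) r = 1 := by
    intro r hr
    obtain ⟨u, v, rfl⟩ := hR r hr
    rw [map_mul, map_mul, map_mul, map_inv, map_inv]
    exact mul_inv_eq_one.2 (by rw [mul_comm, ← mul_assoc, inv_mul_cancel, one_mul])
  let g : PresentedGroup R →* Multiplicative (ZMod 4) := PresentedGroup.toGroup hrel
  let c : Multiplicative (ZMod 4) →* Multiplicative (ZMod 2) :=
    AddMonoidHom.toMultiplicative (ZMod.castHom (by decide : 2 ∣ 4) (ZMod 2)).toAddMonoidHom
  have hcg : c.comp g = φ.comp e.toMonoidHom := by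
    apply PresentedGroup.ext
    intro s
    apply Multiplicative.toAdd.injective
    have h1 : g (PresentedGroup.of s) = Multiplicative.ofAdd (f s) := PresentedGroup.toGroup.of hrel
    rw [MonoidHom.comp_apply, h1]
    exact hf s
  refine ⟨g.comp e.symm.toMonoidHom, fun x => ?_⟩
  have h2 := congrArg (fun h : PresentedGroup R →* Multiplicative (ZMod 2) =>
    Multiplicative.toAdd (h (e.symm x))) hcg
  have h3 : (φ.comp e.toMonoidHom) (e.symm x) = φ x := by
    rw [MonoidHom.comp_apply]
    exact congrArg φ (e.apply_symm_apply x)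
  simp only [h3] at h2
  exact h2

end KT

end GB
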